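import Pool.Agent.helper47.CL.SpecD

/-! Row `cl:TB` (MP_d9d598_co). -/

set_option autoImplicit false

namespace Pool.Agent.helper41.CL

open Finset

theorem TB_three (q r i : ℕ) (hr : r ≤ q) (hi : 1 ≤ i) (hir : i ≤ r) : partSize (2 * q + r) q i = 3 := by
  unfold partSize
  have h : 2 * q + r + q - i = (r - i) + 3 * q := by omega
  have hq : 0 < q := by omega
  rw [h, Nat.add_mul_div_right _ _ hq, Nat.div_eq_of_lt (by omega)]

theorem TB_two (q r i : ℕ) (hir : r < i) (hiq : i ≤ q) : partSize (2 * q + r) q i = 2 := by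
  unfold partSize
  have h : 2 * q + r + q - i = (q + r - i) + 2 * q := by omega
  have hq : 0 < q := by omega
  rw [h, Nat.add_mul_div_right _ _ hq, Nat.div_eq_of_lt (by omega)]

theorem TB : TB_stmt := by
  intro q r hr hrq
  unfold target
  rw [Nat.add_sub_cancel, TB_three q r 1 hrq (by omega) (by omega), TB_three q r 2 hrq (by omega) hr]
  have e1 : Icc 3 q = Ico 3 (q + 1) := by
    ext i
    rw [mem_Icc, mem_Ico]
    omega
  rw [e1, ← prod_Ico_consecutive _ (by omega : 3 ≤ r + 1) (by omega : r + 1 ≤ q + 1)]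
  have h1 : ∏ i ∈ Ico 3 (r + 1), partSize (2 * q + r) q i = 3 ^ (r - 2) := by
    rw [prod_congr rfl (fun i hi => TB_three q r i hrq (by have := mem_Ico.1 hi; omega) (by have := mem_Ico.1 hi; omega)),
      prod_const, Nat.card_Ico]
    have : r + 1 - 3 = r - 2 := by omega
    rw [this]
  have h2 : ∏ i ∈ Ico (r + 1) (q + 1), partSize (2 * q + r) q i = 2 ^ (q - r) := by
    rw [prod_congr rfl (fun i hi => TB_two q r i (by have := mem_Ico.1 hi; omega) (by have := mem_Ico.1 hi; omega)),
      prod_const, Nat.card_Ico]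
    have : q + 1 - (r + 1) = q - r := by omega
    rw [this]
  rw [h1, h2]
  ring

end Pool.Agent.helper41.CL
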