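import Pool.Agent.helper47.CL.SpecD

/-! Row `cl:ZH` (MP_d9d598_co). -/

set_option autoImplicit false

namespace Pool.Agent.helper41.CL

open Finset

theorem ZH_mem_ind {α : Type} [DecidableEq α] {V : Finset α} {E : Finset (Finset α)} {k : ℕ} {I : Finset α} :
    I ∈ ind V E k ↔ (I ⊆ V ∧ #I = k) ∧ ∀ e ∈ E, ¬ e ⊆ I := by
  unfold ind
  rw [mem_filter, mem_powersetCard]

theorem ZH : ZH_stmt := by
  intro α _ V E a c y hG hac hne hy hiso
  have hacV := (hG _ hac).1
  have haV : a ∈ V := hacV (mem_insert_self _ _)
  have hcV : c ∈ V := hacV (mem_insert_of_mem (mem_singleton_self _))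
  have hyac := hiso _ hac
  rw [mem_insert, mem_singleton, not_or] at hyac
  have hyE : ({y, c} : Finset α) ∉ E := fun h => hiso _ h (mem_insert_self _ _)
  have hyE2 : ({y, c} : Finset α) ∉ E.erase {a, c} := fun h => hyE (mem_of_mem_erase h)
  refine ⟨?_, ?_, ?_⟩
  · intro e he
    rcases mem_insert.1 he with rfl | he
    · refine ⟨insert_subset hy (singleton_subset_iff.2 hcV), card_pair hyac.2⟩
    · exact hG e (mem_of_mem_erase he)
  · rw [card_insert_of_notMem hyE2, card_erase_of_mem hac]
    have : 0 < #E := card_pos.2 ⟨_, hac⟩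
    omega
  · intro k
    refine card_le_card_of_injOn (fun I => if a ∈ I ∧ c ∈ I then insert y (I.erase a) else I) ?_ ?_
    · intro I hI
      rw [mem_coe] at hI
      obtain ⟨⟨hIV, hIc⟩, hIE⟩ := ZH_mem_ind.1 hI
      have hIyc : ¬ ({y, c} : Finset α) ⊆ I := hIE _ (mem_insert_self _ _)
      have hIE2 : ∀ e ∈ E, e ≠ {a, c} → ¬ e ⊆ I := fun e he hne' =>
        hIE e (mem_insert_of_mem (mem_erase.2 ⟨hne', he⟩))
      show (if a ∈ I ∧ c ∈ I then insert y (I.erase a) else I) ∈ (ind V E k : Set (Finset α))
      rw [mem_coe]
      by_cases hc : a ∈ I ∧ c ∈ I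
      · rw [if_pos hc]
        have hyI : y ∉ I := fun h => hIyc (insert_subset h (singleton_subset_iff.2 hc.2))
        have hyI2 : y ∉ I.erase a := fun h => hyI (mem_of_mem_erase h)
        refine ZH_mem_ind.2 ⟨⟨insert_subset hy ((erase_subset _ _).trans hIV), ?_⟩, ?_⟩
        · rw [card_insert_of_notMem hyI2, card_erase_of_mem hc.1]
          have : 0 < #I := card_pos.2 ⟨_, hc.1⟩
          omega
        · intro e he hsub
          have h1 : e ⊆ I.erase a := by
            intro x hx
            rcases mem_insert.1 (hsub hx) with rfl | h2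
            · exact absurd hx (hiso e he)
            · exact h2
          by_cases hea : e = {a, c}
          · have h2 : a ∈ I.erase a := h1 (by rw [hea]; exact mem_insert_self _ _)
            exact notMem_erase _ _ h2
          · exact hIE2 e he hea (h1.trans (erase_subset _ _))
      · rw [if_neg hc]
        refine ZH_mem_ind.2 ⟨⟨hIV, hIc⟩, fun e he hsub => ?_⟩
        by_cases hea : e = {a, c}
        · apply hc
          rw [hea] at hsub
          exact ⟨hsub (mem_insert_self _ _), hsub (mem_insert_of_mem (mem_singleton_self _))⟩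
        · exact hIE2 e he hea hsub
    · intro I hI J hJ hIJ
      rw [mem_coe] at hI hJ
      have hIyc : ¬ ({y, c} : Finset α) ⊆ I := (ZH_mem_ind.1 hI).2 _ (mem_insert_self _ _)
      have hJyc : ¬ ({y, c} : Finset α) ⊆ J := (ZH_mem_ind.1 hJ).2 _ (mem_insert_self _ _)
      have hIJ' : (if a ∈ I ∧ c ∈ I then insert y (I.erase a) else I) =
          (if a ∈ J ∧ c ∈ J then insert y (J.erase a) else J) := hIJ
      by_cases hcI : a ∈ I ∧ c ∈ I
      · have hyI : y ∉ I := fun h => hIyc (insert_subset h (singleton_subset_iff.2 hcI.2))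
        by_cases hcJ : a ∈ J ∧ c ∈ J
        · have hyJ : y ∉ J := fun h => hJyc (insert_subset h (singleton_subset_iff.2 hcJ.2))
          rw [if_pos hcI, if_pos hcJ] at hIJ'
          have h1 := congrArg (fun s => s.erase y) hIJ'
          have h2 : (insert y (I.erase a)).erase y = I.erase a :=
            erase_insert (fun h => hyI (mem_of_mem_erase h))
          have h3 : (insert y (J.erase a)).erase y = J.erase a :=
            erase_insert (fun h => hyJ (mem_of_mem_erase h))
          have h4 : (insert y (I.erase a)).erase y = (insert y (J.erase a)).erase y := h1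
          rw [h2, h3] at h4
          have h5 := congrArg (fun s => insert a s) h4
          have h6 : insert a (I.erase a) = insert a (J.erase a) := h5
          rw [insert_erase hcI.1, insert_erase hcJ.1] at h6
          exact h6
        · exfalso
          rw [if_pos hcI, if_neg hcJ] at hIJ'
          apply hJyc
          rw [← hIJ']
          exact insert_subset (mem_insert_self _ _)
            (singleton_subset_iff.2 (mem_insert_of_mem (mem_erase.2 ⟨hne.symm, hcI.2⟩)))
      · by_cases hcJ : a ∈ J ∧ c ∈ J
        · exfalso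
          rw [if_neg hcI, if_pos hcJ] at hIJ'
          apply hIyc
          rw [hIJ']
          exact insert_subset (mem_insert_self _ _)
            (singleton_subset_iff.2 (mem_insert_of_mem (mem_erase.2 ⟨hne.symm, hcJ.2⟩)))
        · rw [if_neg hcI, if_neg hcJ] at hIJ'
          exact hIJ'

end Pool.Agent.helper41.CL
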