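import Pool.Agent.helper47.CL.SpecD

/-! Row `cl:MA` (MP_d9d598_co). -/

set_option autoImplicit false

namespace Pool.Agent.helper41.CL

open Finset

theorem MA_mem_ind {α : Type} [DecidableEq α] {V : Finset α} {E : Finset (Finset α)} {k : ℕ} {I : Finset α} :
    I ∈ ind V E k ↔ (I ⊆ V ∧ #I = k) ∧ ∀ e ∈ E, ¬ e ⊆ I := by
  unfold ind
  rw [mem_filter, mem_powersetCard]

theorem MA_mem_ext {α : Type} [DecidableEq α] {V : Finset α} {E : Finset (Finset α)} {J : Finset α} {v : α} :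
    v ∈ ext V E J ↔ v ∈ V ∧ v ∉ J ∧ ∀ e ∈ E, ¬ e ⊆ insert v J := by
  unfold ext
  rw [mem_filter]

theorem MA : MA_stmt := by
  intro α _ V E s
  have h1 : ∑ J ∈ ind V E s, #(ext V E J) = #((ind V E s).sigma fun J => ext V E J) := (card_sigma _ _).symm
  have h2 : (s + 1) * #(ind V E (s + 1)) = #((ind V E (s + 1)).sigma fun I => I) := by
    rw [card_sigma, sum_congr rfl (fun I hI => (MA_mem_ind.1 hI).1.2), sum_const, smul_eq_mul, mul_comm]
  rw [h1, h2]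
  refine card_bij' (fun x _ => ⟨insert x.2 x.1, x.2⟩) (fun y _ => ⟨y.1.erase y.2, y.2⟩) ?_ ?_ ?_ ?_
  · rintro ⟨J, v⟩ hx
    rw [mem_sigma] at hx
    obtain ⟨⟨hJV, hJc⟩, hJE⟩ := MA_mem_ind.1 hx.1
    obtain ⟨hv, hvJ, hvE⟩ := MA_mem_ext.1 hx.2
    rw [mem_sigma]
    refine ⟨MA_mem_ind.2 ⟨⟨insert_subset hv hJV, ?_⟩, hvE⟩, mem_insert_self _ _⟩
    show #(insert v J) = s + 1
    rw [card_insert_of_notMem hvJ, hJc]
  · rintro ⟨I, v⟩ hy
    rw [mem_sigma] at hy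
    obtain ⟨⟨hIV, hIc⟩, hIE⟩ := MA_mem_ind.1 hy.1
    have hvI : v ∈ I := hy.2
    rw [mem_sigma]
    refine ⟨MA_mem_ind.2 ⟨⟨(erase_subset _ _).trans hIV, ?_⟩, fun e he h => hIE e he (h.trans (erase_subset _ _))⟩,
      MA_mem_ext.2 ⟨hIV hvI, notMem_erase _ _, ?_⟩⟩
    · show #(I.erase v) = s
      rw [card_erase_of_mem hvI, hIc]
      omega
    · intro e he h
      have h3 : insert v (I.erase v) = I := insert_erase hvI
      have h4 : e ⊆ insert v (I.erase v) := h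
      rw [h3] at h4
      exact hIE e he h4
  · rintro ⟨J, v⟩ hx
    rw [mem_sigma] at hx
    obtain ⟨hv, hvJ, hvE⟩ := MA_mem_ext.1 hx.2
    show (⟨(insert v J).erase v, v⟩ : (_ : Finset α) × α) = ⟨J, v⟩
    rw [erase_insert hvJ]
  · rintro ⟨I, v⟩ hy
    rw [mem_sigma] at hy
    have hvI : v ∈ I := hy.2
    show (⟨insert v (I.erase v), v⟩ : (_ : Finset α) × α) = ⟨I, v⟩
    rw [insert_erase hvI]

end Pool.Agent.helper41.CL
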