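import Pool.Agent.helper47.CL.SpecD

/-! Row `cl:MC` (MP_d9d598_co). -/

set_option autoImplicit false

namespace Pool.Agent.helper41.CL

open Finset

theorem MC_zero {α : Type} [DecidableEq α] (V : Finset α) (E : Finset (Finset α)) (hG : Gr V E) :
    #(ind V E 0) = 1 := by
  have h : ind V E 0 = {∅} := by
    unfold ind
    ext I
    rw [mem_filter, mem_powersetCard, mem_singleton]
    constructor
    · rintro ⟨⟨-, h1⟩, -⟩
      exact card_eq_zero.1 h1
    · rintro rfl
      refine ⟨⟨empty_subset _, rfl⟩, fun e he h2 => ?_⟩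
      have h3 := (hG e he).2
      rw [subset_empty.1 h2] at h3
      simp at h3
  rw [h, card_singleton]

theorem MC_one {α : Type} [DecidableEq α] (V : Finset α) (E : Finset (Finset α)) (hG : Gr V E) :
    #(ind V E 1) = #V := by
  have h : ind V E 1 = V.powersetCard 1 := by
    unfold ind
    refine filter_true_of_mem fun I hI e he h2 => ?_
    have h3 := (hG e he).2
    have h4 := card_le_card h2
    rw [(mem_powersetCard.1 hI).2] at h4
    omega
  rw [h, card_powersetCard, Nat.choose_one_right]

theorem MC_two {α : Type} [DecidableEq α] (V : Finset α) (E : Finset (Finset α)) (hG : Gr V E) :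
    (#V).choose 2 ≤ #(ind V E 2) + #E := by
  have h : V.powersetCard 2 ⊆ ind V E 2 ∪ E := by
    intro I hI
    rw [mem_union]
    by_cases hE : I ∈ E
    · exact Or.inr hE
    · left
      unfold ind
      rw [mem_filter]
      refine ⟨hI, fun e he h2 => hE ?_⟩
      have h3 := (hG e he).2
      have h4 : e = I := eq_of_subset_of_card_le h2 (by rw [(mem_powersetCard.1 hI).2, h3])
      rw [← h4]
      exact he
  have h5 := (card_le_card h).trans (card_union_le _ _)
  rw [card_powersetCard] at h5
  exact h5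

theorem MC_cs (h1 : MA_stmt) (h2 : MB_stmt) {α : Type} [DecidableEq α] (V : Finset α) (E : Finset (Finset α))
    (hG : Gr V E) (s : ℕ) :
    ((s + 1) * #(ind V E (s + 1))) ^ 2 ≤
      #(ind V E s) * (#V * #(ind V E (s + 1)) + s * (s + 2) * #(ind V E (s + 2))) := by
  have a := h1 α V E s
  have b := h2 α V E s hG
  have c : (∑ J ∈ ind V E s, #(ext V E J)) ^ 2 ≤ #(ind V E s) * ∑ J ∈ ind V E s, #(ext V E J) ^ 2 :=
    sq_sum_le_card_mul_sum_sq
  rw [a] at c
  exact c.trans (Nat.mul_le_mul_left _ b)

theorem MC_claim (h1 : MA_stmt) (h2 : MB_stmt) {α : Type} [DecidableEq α] (V : Finset α) (E : Finset (Finset α))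
    (Q : ℕ) (hG : Gr V E) (hV : #V = 3 * Q) (hE : #E ≤ 3 * Q) :
    ∀ s : ℕ, s < Q → 3 * (Q - s) * #(ind V E s) ≤ (s + 1) * #(ind V E (s + 1)) ∧ 0 < #(ind V E s) := by
  intro s
  induction s with
  | zero =>
    intro hs
    rw [MC_zero V E hG, MC_one V E hG, hV]
    omega
  | succ s ih =>
    intro hs
    obtain ⟨ha, hb⟩ := ih (by omega)
    obtain ⟨d, hd⟩ : ∃ d, Q = s + 1 + d := ⟨Q - (s + 1), by omega⟩
    have hd0 : 1 ≤ d := by omega
    have e1 : Q - s = d + 1 := by omega
    have e2 : Q - (s + 1) = d := by omega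
    rw [e1] at ha
    rw [e2]
    have hpos : 0 < #(ind V E (s + 1)) := by
      by_contra hcon
      have h0 : #(ind V E (s + 1)) = 0 := by omega
      rw [h0, mul_zero] at ha
      have : 0 < 3 * (d + 1) * #(ind V E s) := by positivity
      omega
    refine ⟨?_, hpos⟩
    rcases Nat.eq_zero_or_pos s with hs0 | hs0
    · subst hs0
      have h3 := MC_two V E hG
      simp only [Nat.zero_add] at hd ⊢
      rw [MC_one V E hG, hV]
      rw [hV] at h3
      have h4 : (3 * Q).choose 2 = (3 * Q) * (3 * Q - 1) / 2 := Nat.choose_two_right _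
      have h5 : 2 * (3 * Q).choose 2 = (3 * Q) * (3 * Q - 1) := by
        rw [h4]
        exact Nat.mul_div_cancel' (Nat.even_mul_pred_self _).two_dvd
      have h6 : 3 * Q - 1 = 3 * d + 2 := by omega
      rw [h6] at h5
      have h7 : 2 * (3 * Q).choose 2 ≤ 2 * #(ind V E 2) + 2 * (3 * Q) := by omega
      rw [h5] at h7
      show 3 * d * (3 * Q) ≤ (1 + 1) * #(ind V E (1 + 1))
      have h8 : 3 * Q * (3 * d + 2) = 3 * d * (3 * Q) + 2 * (3 * Q) := by ring
      rw [h8] at h7
      have h9 : (1 + 1) * #(ind V E (1 + 1)) = 2 * #(ind V E 2) := rfl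
      rw [h9]
      omega
    · have h3 := MC_cs h1 h2 V E hG s
      rw [hV] at h3
      generalize #(ind V E s) = x at *
      generalize #(ind V E (s + 1)) = y at *
      have e3 : #(ind V E (s + 1 + 1)) = #(ind V E (s + 2)) := rfl
      rw [e3]
      generalize #(ind V E (s + 2)) = z at *
      -- multiply by 3 (d + 1)
      have h4 : 3 * (d + 1) * ((s + 1) * y) ^ 2 ≤ (s + 1) * y * (3 * Q * y + s * (s + 2) * z) := by
        calc 3 * (d + 1) * ((s + 1) * y) ^ 2 ≤ 3 * (d + 1) * (x * (3 * Q * y + s * (s + 2) * z)) :=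
              Nat.mul_le_mul_left _ h3
          _ = 3 * (d + 1) * x * (3 * Q * y + s * (s + 2) * z) := by ring
          _ ≤ (s + 1) * y * (3 * Q * y + s * (s + 2) * z) := Nat.mul_le_mul_right _ ha
      have h5 : 3 * (d + 1) * ((s + 1) * y) ≤ 3 * Q * y + s * (s + 2) * z := by
        have h6 : (s + 1) * y * (3 * (d + 1) * ((s + 1) * y)) ≤
            (s + 1) * y * (3 * Q * y + s * (s + 2) * z) := by
          calc (s + 1) * y * (3 * (d + 1) * ((s + 1) * y)) = 3 * (d + 1) * ((s + 1) * y) ^ 2 := by ring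
            _ ≤ _ := h4
        exact Nat.le_of_mul_le_mul_left h6 (by positivity)
      have h7 : s * (3 * d * y) ≤ s * ((s + 2) * z) := by
        have h8 : 3 * (d + 1) * ((s + 1) * y) = 3 * Q * y + s * (3 * d * y) := by
          rw [hd]
          ring
        rw [h8] at h5
        have h9 : s * ((s + 2) * z) = s * (s + 2) * z := by ring
        rw [h9]
        omega
      have h10 := Nat.le_of_mul_le_mul_left h7 hs0
      have h11 : (s + 1 + 1) * z = (s + 2) * z := rfl
      rw [h11]
      exact h10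

theorem MC (h1 : MA_stmt) (h2 : MB_stmt) : MC_stmt := by
  intro α _ V E Q hG hV hE
  have hcl := MC_claim h1 h2 V E Q hG hV hE
  have hmain : ∀ s : ℕ, s ≤ Q → 3 ^ s * Q.choose s ≤ #(ind V E s) := by
    intro s
    induction s with
    | zero =>
      intro _
      rw [MC_zero V E hG, Nat.choose_zero_right]
      norm_num
    | succ s ih =>
      intro hs
      have h3 := ih (by omega)
      have h4 := (hcl s (by omega)).1
      have h5 : Q.choose (s + 1) * (s + 1) = Q.choose s * (Q - s) := Nat.choose_succ_right_eq Q s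
      have h6 : (s + 1) * (3 ^ (s + 1) * Q.choose (s + 1)) ≤ (s + 1) * #(ind V E (s + 1)) := by
        calc (s + 1) * (3 ^ (s + 1) * Q.choose (s + 1)) = 3 * 3 ^ s * (Q.choose (s + 1) * (s + 1)) := by
              rw [pow_succ]; ring
          _ = 3 * (Q - s) * (3 ^ s * Q.choose s) := by rw [h5]; ring
          _ ≤ 3 * (Q - s) * #(ind V E s) := Nat.mul_le_mul_left _ h3
          _ ≤ _ := h4
      exact Nat.le_of_mul_le_mul_left h6 (by positivity)
  have h7 := hmain Q le_rfl
  rw [Nat.choose_self, mul_one] at h7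
  exact h7

end Pool.Agent.helper41.CL
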