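import Pool.Agent.helper47.CL.SpecD

/-! Row `cl:RD` (MP_d9d598_co). -/

set_option autoImplicit false

namespace Pool.Agent.helper41.CL

open Finset

theorem RD (h1 : RC_stmt) (h2 : RB_stmt) (h3 : RA_stmt) : RD_stmt := by
  intro N
  induction N with
  | zero =>
    refine ⟨?_, ?_, ?_⟩
    · intro α _ V E q r hG hV hN hr hE
      exfalso
      omega
    · intro α _ V E q r hG hV hN hr hE
      exfalso
      omega
    · intro α _ V E q r hG hV hN hr hE
      exfalso
      omega
  | succ N ih =>
    obtain ⟨a, b, c⟩ := ih
    have c' := h1 N b c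
    have b' := h2 N a b c c'
    exact ⟨h3 N a b b', b', c'⟩

end Pool.Agent.helper41.CL
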